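import Pool.Agent.Helper31.GSGroup

/-!
# Two fixed-point-free automorphisms of order 5 generating an infinite periodic group

`Aut(A)` is `MulAut A` for a commutative group `A` (written multiplicatively, so that the neutral
element is `1`).
-/

namespace Pool.Agent.Results.MP_b15bac_al.InfinitePeriodic

open Pool.Agent.Helper31.GS

/-- left multiplication of units, as automorphisms of the additive group written
multiplicatively -/
def leftMulAut (M : Type) [Ring M] : Mˣ →* MulAut (Multiplicative M) :=
  ((MulAutMultiplicative (G := M)).symm.toMonoidHom).comp (DistribMulAction.toAddAut Mˣ M)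

lemma leftMulAut_apply (M : Type) [Ring M] (u : Mˣ) (m : M) :
    leftMulAut M u (Multiplicative.ofAdd m) = Multiplicative.ofAdd ((u : M) * m) := rfl

lemma leftMulAut_injective (M : Type) [Ring M] : Function.Injective (leftMulAut M) := by
  intro u v h
  ext1
  have h1 : leftMulAut M u (Multiplicative.ofAdd 1) = leftMulAut M v (Multiplicative.ofAdd 1) := by
    rw [h]
  rw [leftMulAut_apply, leftMulAut_apply, mul_one, mul_one] at h1
  exact Multiplicative.ofAdd.injective h1

/-- **Main result** (negative answer to Q1): there are an abelian group `A` and two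
fixed-point-free automorphisms `α`, `β` of `A`, each of order exactly `5`, such that the subgroup
of `Aut(A)` generated by `α` and `β` is periodic and infinite. -/
theorem result : ∃ (A : Type) (_ : CommGroup A) (α β : MulAut A),
    (∀ a : A, α a = a → a = 1) ∧ (∀ a : A, β a = a → a = 1) ∧
    orderOf α = 5 ∧ orderOf β = 5 ∧
    (∀ g ∈ Subgroup.closure ({α, β} : Set (MulAut A)), IsOfFinOrder g) ∧
    Infinite (Subgroup.closure ({α, β} : Set (MulAut A))) := by
  obtain ⟨M, _, a, b, hafix, hbfix, ha5, hb5, hone, hper, hinf⟩ := exists_units
  have fact5 : Fact (Nat.Prime 5) := ⟨by norm_num⟩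
  have hfix : ∀ c : Mˣ, (∀ m : M, (c : M) * m = m → m = 0) →
      ∀ x : Multiplicative M, leftMulAut M c x = x → x = 1 := by
    intro c hc x hx
    have h1 : (c : M) * Multiplicative.toAdd x = Multiplicative.toAdd x :=
      congrArg Multiplicative.toAdd hx
    have h2 := hc _ h1
    exact congrArg Multiplicative.ofAdd h2
  have hord : ∀ c : Mˣ, (∀ m : M, (c : M) * m = m → m = 0) → c ^ 5 = 1 →
      orderOf (leftMulAut M c) = 5 := by
    intro c hc hc5
    apply orderOf_eq_prime
    · rw [← map_pow, hc5, map_one]
    · intro h
      have h1 : c = 1 := leftMulAut_injective M (by rw [h, map_one])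
      exact hone (hc 1 (by rw [h1, Units.val_one, mul_one]))
  have himage : Subgroup.closure ({leftMulAut M a, leftMulAut M b} : Set (MulAut (Multiplicative M)))
      = (Subgroup.closure ({a, b} : Set Mˣ)).map (leftMulAut M) := by
    rw [MonoidHom.map_closure, Set.image_pair]
  refine ⟨Multiplicative M, inferInstance, leftMulAut M a, leftMulAut M b, hfix a hafix,
    hfix b hbfix, hord a hafix ha5, hord b hbfix hb5, ?_, ?_⟩
  · intro g hg
    rw [himage] at hg
    obtain ⟨g', hg', rfl⟩ := hg
    exact (leftMulAut M).isOfFinOrder (hper g' hg')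
  · rw [himage]
    have e := (Subgroup.closure ({a, b} : Set Mˣ)).equivMapOfInjective (leftMulAut M)
      (leftMulAut_injective M)
    exact Infinite.of_injective e e.injective

end Pool.Agent.Results.MP_b15bac_al.InfinitePeriodic
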